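import Pool.Agent.Helper44.RA.D4

/-! Project ZB: binomial columns. -/

set_option autoImplicit false

namespace Pool.ZB

open Finset Pool.RA

/-- `C(e,a) (1+x)^e = (1+x)^a ∑ m, C(e,m) C(m,a) x^(m-a)`. -/
theorem binom_exp {R : Type*} [CommRing R] (a e E : ℕ) (he : e ≤ E) (x : R) :
    (e.choose a : R) * (1 + x) ^ e =
      ∑ m ∈ range (E + 1), (e.choose m : R) * ((m.choose a : R) * (1 + x) ^ a * x ^ (m - a)) := by
  have hz : ∀ m ∈ range (E + 1), m ∉ Ico a (e + 1) →
      (e.choose m : R) * ((m.choose a : R) * (1 + x) ^ a * x ^ (m - a)) = 0 := by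
    intro m _ hm
    rw [mem_Ico, not_and_or] at hm
    rcases hm with hm | hm
    · rw [Nat.choose_eq_zero_of_lt (show m < a by omega)]
      simp
    · rw [Nat.choose_eq_zero_of_lt (show e < m by omega)]
      simp
  rcases lt_or_ge e a with h | h
  · rw [Nat.choose_eq_zero_of_lt h, Nat.cast_zero, zero_mul]
    symm
    refine sum_eq_zero fun m hm => hz m hm ?_
    rw [mem_Ico]
    omega
  · have hsub : Ico a (e + 1) ⊆ range (E + 1) := by
      intro m hm
      rw [mem_Ico] at hm
      rw [mem_range]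
      omega
    rw [← sum_subset hsub hz, sum_Ico_eq_sum_range]
    have h1 : (1 + x) ^ e = (1 + x) ^ a * ∑ k ∈ range (e - a + 1), x ^ k * ((e - a).choose k : R) := by
      have h2 : (1 + x) ^ (e - a) = ∑ k ∈ range (e - a + 1), x ^ k * ((e - a).choose k : R) := by
        rw [add_comm, add_pow]
        refine sum_congr rfl fun k _ => ?_
        rw [one_pow, mul_one]
      rw [← h2, ← pow_add]
      congr 1
      omega
    rw [h1, mul_sum, mul_sum]
    have h3 : e + 1 - a = e - a + 1 := by omega
    rw [h3]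
    refine sum_congr rfl fun k hk => ?_
    rw [mem_range] at hk
    have h4 : e.choose (a + k) * (a + k).choose a = e.choose a * (e - a).choose k := by
      have h5 := Nat.choose_mul (n := e) (k := a + k) (s := a) (by omega)
      rw [h5]
      congr 2
      omega
    have h6 : ((e.choose (a + k) : R)) * ((a + k).choose a : R) =
        (e.choose a : R) * ((e - a).choose k : R) := by exact_mod_cast congrArg (Nat.cast : ℕ → R) h4
    have h7 : a + k - a = k := by omega
    rw [h7]
    calc (e.choose a : R) * ((1 + x) ^ a * (x ^ k * ((e - a).choose k : R)))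
        = ((e.choose a : R) * ((e - a).choose k : R)) * ((1 + x) ^ a * x ^ k) := by ring
      _ = _ := by
        rw [← h6]
        ring

/-- The matrix with binomial columns. -/
def bmat (A : ℕ) (e : Col A → ℕ) (u v : Col A → ℤ) : Matrix (Col A) (Col A) ℤ :=
  Matrix.of fun i j => Sum.elim (fun a : Fin (A + 1) => ((e i).choose (a : ℕ) : ℤ) * u i)
    (fun a : Fin (A + 1) => ((e i).choose (a : ℕ) : ℤ) * v i) j

/-- The columns `e^a` are integer combinations of the columns `C(e,a)`. -/
theorem imat_eq (A : ℕ) : ∃ U : Matrix (Col A) (Col A) ℤ, ∀ (e : Col A → ℕ) (u v : Col A → ℤ),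
    imat A e u v = bmat A e u v * U := by
  choose lam h0 h1 using fun a : ℕ => bin_exp a 0
  refine ⟨Matrix.of fun b j => Sum.elim
    (fun a : Fin (A + 1) => Sum.elim (fun c : Fin (A + 1) => lam (a : ℕ) (c : ℕ)) (fun _ => 0) b)
    (fun a : Fin (A + 1) => Sum.elim (fun _ => 0) (fun c : Fin (A + 1) => lam (a : ℕ) (c : ℕ)) b) j,
    fun e u v => ?_⟩
  have key : ∀ (i : Col A) (a : Fin (A + 1)), (e i : ℤ) ^ (a : ℕ) =
      ∑ c : Fin (A + 1), ((e i).choose (c : ℕ) : ℤ) * lam (a : ℕ) (c : ℕ) := by
    intro i a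
    have h2 := h1 (a : ℕ) (e i)
    rw [Nat.choose_zero_right, Nat.cast_one, mul_one] at h2
    rw [h2, Fin.sum_univ_eq_sum_range (fun c => ((e i).choose c : ℤ) * lam (a : ℕ) c) (A + 1)]
    have h3 : range ((a : ℕ) + 0 + 1) ⊆ range (A + 1) := by
      intro m hm
      rw [mem_range] at *
      have := a.2
      omega
    rw [sum_subset h3 fun m _ hm => by
      rw [mem_range] at hm
      rw [h0 (a : ℕ) m (by omega), zero_mul]]
    exact sum_congr rfl fun m _ => mul_comm _ _
  ext i j
  rw [Matrix.mul_apply, Fintype.sum_sum_type]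
  unfold imat bmat
  simp only [Matrix.of_apply]
  rcases j with a | a
  · simp only [Sum.elim_inl, Sum.elim_inr, mul_zero, sum_const_zero, add_zero]
    rw [key i a, sum_mul]
    exact sum_congr rfl fun c _ => by ring
  · simp only [Sum.elim_inl, Sum.elim_inr, mul_zero, sum_const_zero, zero_add]
    rw [key i a, sum_mul]
    exact sum_congr rfl fun c _ => by ring

theorem bmat_det_ne (A : ℕ) (e : Col A → ℕ) (u v : Col A → ℤ) (h : (imat A e u v).det ≠ 0) :
    (bmat A e u v).det ≠ 0 := by
  obtain ⟨U, hU⟩ := imat_eq A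
  intro h0
  rw [hU, Matrix.det_mul, h0, zero_mul] at h
  exact h rfl

end Pool.ZB
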