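import Pool.Agent.Helper42.ZB.E0

/-! Project ZB: divisibility of the interpolation determinant by a power of a prime. -/

set_option autoImplicit false

namespace Pool.ZB

open Finset Pool.RA

theorem card_sum_ge (s : Finset ℕ) : s.card * s.card ≤ 2 * ∑ x ∈ s, x + s.card := by
  induction s using Finset.induction_on_max with
  | empty => simp
  | insert a s hs ih =>
    have h1 : a ∉ s := fun h => lt_irrefl a (hs a h)
    rw [sum_insert h1, card_insert_of_notMem h1]
    have h2 : s.card ≤ a := by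
      have h3 : s ⊆ range a := fun x hx => mem_range.2 (hs x hx)
      have h4 := card_le_card h3
      rwa [card_range] at h4
    nlinarith

/-- `k` different exponents `f a ≥ T`, indexed by `a < T`: the sum of the `f a - a` is at least
`k ^ 2`. -/
theorem weight_sq {T : ℕ} (R : Finset (Fin T)) (f : Fin T → ℕ) (hf : ∀ a ∈ R, T ≤ f a)
    (hinj : Set.InjOn f (R : Set (Fin T))) : R.card ^ 2 ≤ ∑ a ∈ R, (f a - (a : ℕ)) := by
  classical
  have h1 : ∑ a ∈ R, (f a - (a : ℕ)) =
      ∑ a ∈ R, (f a - T) + ∑ a ∈ R, (T - 1 - (a : ℕ)) + R.card := by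
    rw [← sum_add_distrib, card_eq_sum_ones, ← sum_add_distrib]
    refine sum_congr rfl fun a ha => ?_
    have := hf a ha
    have := a.2
    omega
  have h2 : ∑ a ∈ R, (f a - T) = ∑ x ∈ R.image (fun a => f a - T), x := by
    rw [sum_image]
    intro a ha b hb hab
    apply hinj ha hb
    have h3 := hf a ha
    have h4 := hf b hb
    simp only at hab
    omega
  have h3 : (R.image (fun a => f a - T)).card = R.card := by
    apply card_image_of_injOn
    intro a ha b hb hab
    apply hinj ha hb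
    have h3 := hf a ha
    have h4 := hf b hb
    simp only at hab
    omega
  have h4 : ∑ a ∈ R, (T - 1 - (a : ℕ)) = ∑ x ∈ R.image (fun a : Fin T => T - 1 - (a : ℕ)), x := by
    rw [sum_image]
    intro a _ b _ hab
    have h5 := a.2
    have h6 := b.2
    simp only at hab
    exact Fin.ext (by omega)
  have h5 : (R.image (fun a : Fin T => T - 1 - (a : ℕ))).card = R.card := by
    apply card_image_of_injOn
    intro a _ b _ hab
    have h5 := a.2
    have h6 := b.2
    simp only at hab
    exact Fin.ext (by omega)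
  have h6 := card_sum_ge (R.image (fun a => f a - T))
  have h7 := card_sum_ge (R.image (fun a : Fin T => T - 1 - (a : ℕ)))
  rw [h3, ← h2] at h6
  rw [h5, ← h4] at h7
  rw [h1, sq]
  omega

/-- The choice of the columns in the multilinear expansion. -/
private def W (A E : ℕ) (e : Col A → ℕ) (u : Col A → ℤ) (h : Col A → ℤ) :
    Fin (A + E + 1) ⊕ Col A → Col A → ℤ := fun x i =>
  Sum.elim (fun m : Fin (A + E + 1) => u i * ((e i).choose (m : ℕ) : ℤ))
    (fun j : Col A => Sum.elim (fun _ => (0 : ℤ))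
      (fun a : Fin (A + 1) => ((e i).choose (a : ℕ) : ℤ) * h i) j) x

private def cf (A E : ℕ) (x pm : ℤ) : Fin (A + E + 1) ⊕ Col A → Col A → ℤ := fun c j =>
  Sum.elim
    (fun m : Fin (A + E + 1) => Sum.elim
      (fun a : Fin (A + 1) => if (m : ℕ) = (a : ℕ) then (1 : ℤ) else 0)
      (fun a : Fin (A + 1) => ((m : ℕ).choose (a : ℕ) : ℤ) * (1 + x) ^ (a : ℕ) *
        x ^ ((m : ℕ) - (a : ℕ))) j)
    (fun j' : Col A => Sum.elim (fun _ => (0 : ℤ))
      (fun a : Fin (A + 1) => if j' = Sum.inr a then pm else 0) j) c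

private theorem entry (A E : ℕ) (e : Col A → ℕ) (he : ∀ i, e i ≤ E) (u v h : Col A → ℤ)
    (x pm : ℤ) (hv : ∀ i, v i = (1 + x) ^ (e i) * u i + pm * h i) (i j : Col A) :
    bmat A e u v i j = ∑ c : Fin (A + E + 1) ⊕ Col A, cf A E x pm c j * W A E e u h c i := by
  rw [Fintype.sum_sum_type]
  unfold bmat
  rw [Matrix.of_apply]
  rcases j with a | a
  · have h1 : ∀ j' : Col A, cf A E x pm (Sum.inr j') (Sum.inl a) * W A E e u h (Sum.inr j') i = 0 := by
      intro j'
      unfold cf
      simp
    rw [sum_congr rfl fun j' _ => h1 j', sum_const_zero, add_zero]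
    have h2 : ∀ m : Fin (A + E + 1), cf A E x pm (Sum.inl m) (Sum.inl a) * W A E e u h (Sum.inl m) i =
        if m = ⟨(a : ℕ), by have := a.2; omega⟩ then u i * ((e i).choose (m : ℕ) : ℤ) else 0 := by
      intro m
      unfold cf W
      simp only [Sum.elim_inl, Fin.ext_iff, ite_mul, one_mul, zero_mul]
    rw [sum_congr rfl fun m _ => h2 m, sum_ite_eq' univ]
    simp only [mem_univ, if_true, Sum.elim_inl]
    ring
  · have h1 : ∀ j' : Col A, cf A E x pm (Sum.inr j') (Sum.inr a) * W A E e u h (Sum.inr j') i =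
        if j' = Sum.inr a then pm * (((e i).choose (a : ℕ) : ℤ) * h i) else 0 := by
      intro j'
      unfold cf W
      simp only [Sum.elim_inr, ite_mul, zero_mul]
      split_ifs with h3
      · rw [h3]
        rfl
      · rfl
    rw [sum_congr rfl fun j' _ => h1 j', sum_ite_eq' univ]
    simp only [mem_univ, if_true, Sum.elim_inr]
    rw [hv i]
    have h2 := binom_exp (a : ℕ) (e i) (A + E) ((he i).trans (by omega)) x
    have h3 : ∑ m : Fin (A + E + 1), cf A E x pm (Sum.inl m) (Sum.inr a) *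
        W A E e u h (Sum.inl m) i = (∑ m ∈ range (A + E + 1), ((e i).choose m : ℤ) *
          ((m.choose (a : ℕ) : ℤ) * (1 + x) ^ (a : ℕ) * x ^ (m - (a : ℕ)))) * u i := by
      rw [← Fin.sum_univ_eq_sum_range (fun m => ((e i).choose m : ℤ) *
          ((m.choose (a : ℕ) : ℤ) * (1 + x) ^ (a : ℕ) * x ^ (m - (a : ℕ)))) (A + E + 1), sum_mul]
      refine sum_congr rfl fun m _ => ?_
      unfold cf W
      simp only [Sum.elim_inl, Sum.elim_inr]
      ring
    rw [h3, ← h2]
    ring

private theorem expand (A E : ℕ) (e : Col A → ℕ) (he : ∀ i, e i ≤ E) (u v h : Col A → ℤ)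
    (x pm : ℤ) (hv : ∀ i, v i = (1 + x) ^ (e i) * u i + pm * h i) :
    (bmat A e u v).det = ∑ f : Col A → Fin (A + E + 1) ⊕ Col A, (∏ j, cf A E x pm (f j) j) *
        (Matrix.detRowAlternating : (Col A → ℤ) [⋀^(Col A)]→ₗ[ℤ] ℤ)
          (fun j => W A E e u h (f j)) := by
  rw [← Matrix.det_transpose]
  have h2 : (bmat A e u v).transpose =
      (fun j => ∑ c : Fin (A + E + 1) ⊕ Col A, cf A E x pm c j • W A E e u h c :
        Col A → Col A → ℤ) := by
    funext j i
    rw [Matrix.transpose_apply, entry A E e he u v h x pm hv i j, Finset.sum_apply]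
    rfl
  rw [h2]
  change (Matrix.detRowAlternating : (Col A → ℤ) [⋀^(Col A)]→ₗ[ℤ] ℤ).toMultilinearMap
    (fun j => ∑ c : Fin (A + E + 1) ⊕ Col A, cf A E x pm c j • W A E e u h c) = _
  rw [MultilinearMap.map_sum]
  refine Finset.sum_congr rfl fun f _ => ?_
  rw [MultilinearMap.map_smul_univ]
  rfl

/-- The interpolation determinant is divisible by `p^w` if `w ≤ m i + n (T - i)^2` for all
`i ≤ T = A + 1`. -/
theorem det_dvd_prime (A E p n m w : ℕ) (z : ℤ) (e : Col A → ℕ) (he : ∀ i, e i ≤ E)
    (u v : Col A → ℤ) (hv : ∀ i, (p : ℤ) ^ m ∣ v i - (1 + (p : ℤ) ^ n * z) ^ (e i) * u i)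
    (hw : ∀ i ≤ A + 1, w ≤ m * i + n * (A + 1 - i) ^ 2) :
    (p : ℤ) ^ w ∣ (bmat A e u v).det := by
  classical
  choose h hh using hv
  have hv' : ∀ i, v i = (1 + (p : ℤ) ^ n * z) ^ (e i) * u i + (p : ℤ) ^ m * h i := by
    intro i
    have := hh i
    linarith
  rw [expand A E e he u v h _ _ hv']
  refine dvd_sum fun f _ => ?_
  set x : ℤ := (p : ℤ) ^ n * z with hx
  set pm : ℤ := (p : ℤ) ^ m with hpm
  by_cases hzero : ∃ j, cf A E x pm (f j) j = 0
  · obtain ⟨j, hj⟩ := hzero
    rw [prod_eq_zero (f := fun j => cf A E x pm (f j) j) (mem_univ j) hj, zero_mul]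
    exact dvd_zero _
  push Not at hzero
  by_cases hf : Function.Injective f
  · refine Dvd.dvd.mul_right ?_ _
    -- the left columns
    have hl : ∀ a : Fin (A + 1), f (Sum.inl a) = Sum.inl ⟨(a : ℕ), by have := a.2; omega⟩ := by
      intro a
      have h1 := hzero (Sum.inl a)
      rcases hfa : f (Sum.inl a) with m' | j'
      · rw [hfa] at h1
        unfold cf at h1
        simp only [Sum.elim_inl, ne_eq, ite_eq_right_iff, one_ne_zero, imp_false, not_not] at h1
        congr 1
        exact Fin.ext h1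
      · rw [hfa] at h1
        unfold cf at h1
        simp at h1
    have hr : ∀ (a : Fin (A + 1)) (j' : Col A), f (Sum.inr a) = Sum.inr j' → j' = Sum.inr a := by
      intro a j' hj
      have h1 := hzero (Sum.inr a)
      rw [hj] at h1
      unfold cf at h1
      simp only [Sum.elim_inr, ne_eq, ite_eq_right_iff, not_forall] at h1
      exact h1.1
    have hge : ∀ (a : Fin (A + 1)) (m' : Fin (A + E + 1)), f (Sum.inr a) = Sum.inl m' →
        A + 1 ≤ (m' : ℕ) := by
      intro a m' hm'
      by_contra hcon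
      push Not at hcon
      have h1 := hl ⟨(m' : ℕ), hcon⟩
      have h2 : f (Sum.inl ⟨(m' : ℕ), hcon⟩) = f (Sum.inr a) := by
        rw [h1, hm']
      exact Sum.inl_ne_inr (hf h2)
    set g : Fin (A + 1) → ℕ := fun a =>
      Sum.elim (fun m' : Fin (A + E + 1) => (m' : ℕ)) (fun _ => 0) (f (Sum.inr a)) with hg
    set R : Finset (Fin (A + 1)) := univ.filter fun a => (f (Sum.inr a)).isLeft with hR
    have hRm : ∀ a ∈ R, ∃ m' : Fin (A + E + 1), f (Sum.inr a) = Sum.inl m' ∧ g a = (m' : ℕ) := by
      intro a ha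
      rw [hR, mem_filter] at ha
      rcases hfa : f (Sum.inr a) with m' | j'
      · refine ⟨m', rfl, ?_⟩
        rw [hg]
        simp only [hfa, Sum.elim_inl]
      · rw [hfa] at ha
        simp at ha
    have hRc : ∀ a, a ∉ R → f (Sum.inr a) = Sum.inr (Sum.inr a) := by
      intro a ha
      rw [hR, mem_filter] at ha
      rcases hfa : f (Sum.inr a) with m' | j'
      · rw [hfa] at ha
        simp at ha
      · rw [hr a j' hfa]
    have hw2 := weight_sq R g (fun a ha => by
      obtain ⟨m', h1, h2⟩ := hRm a ha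
      rw [h2]
      exact hge a m' h1) (by
      intro a ha b hb hab
      obtain ⟨m1, h1, h2⟩ := hRm a ha
      obtain ⟨m2, h3, h4⟩ := hRm b hb
      rw [h2, h4] at hab
      have h5 : f (Sum.inr a) = f (Sum.inr b) := by
        rw [h1, h3, Fin.ext hab]
      exact Sum.inr_injective (hf h5))
    have hRcard : R.card ≤ A + 1 := by
      have := card_le_univ R
      rwa [Fintype.card_fin] at this
    have hcomp : (univ \ R).card = A + 1 - R.card := by
      rw [card_sdiff_of_subset (subset_univ R), card_univ, Fintype.card_fin]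
    have hwR := hw (A + 1 - R.card) (by omega)
    have h8 : A + 1 - (A + 1 - R.card) = R.card := by omega
    rw [h8] at hwR
    have hexp : w ≤ n * ∑ a ∈ R, (g a - (a : ℕ)) + m * (univ \ R).card := by
      rw [hcomp]
      have := Nat.mul_le_mul_left n hw2
      omega
    have hA1 : ((p : ℤ) ^ n) ^ (∑ a ∈ R, (g a - (a : ℕ))) ∣
        ∏ a ∈ R, cf A E x pm (f (Sum.inr a)) (Sum.inr a) := by
      rw [← prod_pow_eq_pow_sum]
      refine prod_dvd_prod_of_dvd _ _ fun a ha => ?_
      obtain ⟨m', h1, h2⟩ := hRm a ha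
      rw [h1, h2]
      unfold cf
      simp only [Sum.elim_inl, Sum.elim_inr]
      refine Dvd.dvd.mul_left ?_ _
      rw [hx]
      exact pow_dvd_pow_of_dvd (dvd_mul_right _ _) _
    have hA2 : ((p : ℤ) ^ m) ^ (univ \ R).card ∣
        ∏ a ∈ univ \ R, cf A E x pm (f (Sum.inr a)) (Sum.inr a) := by
      rw [← prod_const]
      refine prod_dvd_prod_of_dvd _ _ fun a ha => ?_
      rw [mem_sdiff] at ha
      rw [hRc a ha.2]
      unfold cf
      simp only [Sum.elim_inr, if_true]
      exact dvd_rfl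
    refine (pow_dvd_pow (p : ℤ) hexp).trans ?_
    rw [Fintype.prod_sum_type]
    refine Dvd.dvd.mul_left ?_ _
    rw [← prod_sdiff (subset_univ R), pow_add, pow_mul, pow_mul]
    rw [mul_comm (((p : ℤ) ^ n) ^ (∑ a ∈ R, (g a - (a : ℕ))))]
    exact mul_dvd_mul hA2 hA1
  · have h6 : (Matrix.detRowAlternating : (Col A → ℤ) [⋀^(Col A)]→ₗ[ℤ] ℤ)
        (fun j => W A E e u h (f j)) = 0 := by
      apply AlternatingMap.map_eq_zero_of_not_injective
      intro h7
      apply hf
      intro a b hab
      exact h7 (congrArg (W A E e u h) hab)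
    rw [h6, mul_zero]
    exact dvd_zero _

end Pool.ZB
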