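import Pool.Agent.Helper42.ZB.E1

/-! Project ZB: lower and upper bound of the interpolation determinant. -/

set_option autoImplicit false

namespace Pool.ZB

open Finset Pool.RA

/-- The exponent `min_{i ≤ T} (m i + n (T - i)^2)`. -/
noncomputable def Wt (T m n : ℕ) : ℕ :=
  (range (T + 1)).inf' nonempty_range_add_one (fun i => m * i + n * (T - i) ^ 2)

theorem Wt_le (T m n i : ℕ) (hi : i ≤ T) : Wt T m n ≤ m * i + n * (T - i) ^ 2 :=
  inf'_le _ (mem_range.2 (by omega))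

theorem le_Wt (T m n : ℕ) (hn : 1 ≤ n) :
    (m : ℝ) * T - (m : ℝ) ^ 2 / (4 * n) ≤ (Wt T m n : ℝ) := by
  obtain ⟨i, hi, h⟩ := exists_mem_eq_inf' (nonempty_range_add_one (n := T))
    (fun i => m * i + n * (T - i) ^ 2)
  rw [mem_range] at hi
  have h1 : Wt T m n = m * i + n * (T - i) ^ 2 := h
  rw [h1]
  have hn0 : (0 : ℝ) < n := by exact_mod_cast hn
  push_cast [Nat.cast_sub (show i ≤ T by omega)]
  have h2 : (m : ℝ) * i + n * ((T : ℝ) - i) ^ 2 - ((m : ℝ) * T - (m : ℝ) ^ 2 / (4 * n)) =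
      n * ((T : ℝ) - i - m / (2 * n)) ^ 2 := by
    field_simp
    ring
  nlinarith [mul_nonneg hn0.le (sq_nonneg ((T : ℝ) - i - m / (2 * n)))]

theorem det_dvd_prod (A E : ℕ) (S : Finset ℕ) (hS : ∀ p ∈ S, p.Prime) (m n : ℕ → ℕ) (g : ℤ)
    (hg : ∀ p ∈ S, ((p : ℤ) ^ n p) ∣ g - 1) (e : Col A → ℕ) (he : ∀ i, e i ≤ E)
    (u v : Col A → ℤ) (hv : ∀ p ∈ S, ∀ i, ((p : ℤ) ^ m p) ∣ v i - g ^ (e i) * u i) :
    (∏ p ∈ S, (p : ℤ) ^ Wt (A + 1) (m p) (n p)) ∣ (bmat A e u v).det := by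
  refine Finset.prod_dvd_of_coprime ?_ ?_
  · intro p hp q hq hpq
    have h1 : IsCoprime (p : ℤ) (q : ℤ) :=
      Nat.isCoprime_iff_coprime.2 ((Nat.coprime_primes (hS p hp) (hS q hq)).2 hpq)
    exact h1.pow
  · intro p hp
    obtain ⟨z, hz⟩ := hg p hp
    have hgz : g = 1 + (p : ℤ) ^ n p * z := by linarith
    exact det_dvd_prime A E p (n p) (m p) _ z e he u v
      (fun i => by rw [← hgz]; exact hv p hp i) (fun i hi => Wt_le _ _ _ i hi)

/-- Leibniz formula with a bound for each row. -/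
theorem abs_det_le_rows {κ : Type} [Fintype κ] [DecidableEq κ] (B : Matrix κ κ ℝ) (c : κ → ℝ)
    (h : ∀ i j, |B i j| ≤ c i) :
    |B.det| ≤ (Nat.factorial (Fintype.card κ) : ℝ) * ∏ j, c j := by
  rw [Matrix.det_apply]
  refine (Finset.abs_sum_le_sum_abs _ _).trans ?_
  have h1 : ∀ σ ∈ (Finset.univ : Finset (Equiv.Perm κ)),
      |Equiv.Perm.sign σ • ∏ i, B (σ i) i| ≤ ∏ j, c j := by
    intro σ _
    have h2 : |Equiv.Perm.sign σ • ∏ i, B (σ i) i| = ∏ i, |B (σ i) i| := by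
      rw [← Finset.abs_prod]
      rcases Int.units_eq_one_or (Equiv.Perm.sign σ) with h3 | h3
      · rw [h3, one_smul]
      · rw [h3, Units.neg_smul, one_smul, abs_neg]
    rw [h2, ← Equiv.prod_comp σ c]
    exact Finset.prod_le_prod (fun i _ => abs_nonneg _) fun i _ => h (σ i) i
  refine (Finset.sum_le_sum h1).trans ?_
  rw [Finset.sum_const, Finset.card_univ, Fintype.card_perm, nsmul_eq_mul]

theorem det_upper (A E : ℕ) (e : Col A → ℕ) (he : ∀ i, e i ≤ E) (u v : Col A → ℤ)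
    (hh : Col A → ℝ) (hu : ∀ i, |(u i : ℝ)| ≤ Real.exp (hh i))
    (hv : ∀ i, |(v i : ℝ)| ≤ Real.exp (hh i)) :
    |(((bmat A e u v).det : ℤ) : ℝ)| ≤
      (Nat.factorial (2 * (A + 1)) : ℝ) * ∏ i, ((2 : ℝ) ^ E * Real.exp (hh i)) := by
  have hcard : Fintype.card (Col A) = 2 * (A + 1) := by
    rw [Fintype.card_sum, Fintype.card_fin]
    ring
  have hb : ∀ (i : Col A) (a : ℕ) (w : ℤ), |(w : ℝ)| ≤ Real.exp (hh i) →
      |((((e i).choose a : ℤ) * w : ℤ) : ℝ)| ≤ (2 : ℝ) ^ E * Real.exp (hh i) := by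
    intro i a w hw
    rw [Int.cast_mul, abs_mul, Int.cast_natCast, Nat.abs_cast]
    refine mul_le_mul ?_ hw (abs_nonneg _) (by positivity)
    have h1 : (e i).choose a ≤ 2 ^ E :=
      (Nat.choose_le_two_pow _ _).trans (Nat.pow_le_pow_right (by norm_num) (he i))
    exact_mod_cast h1
  have h2 := abs_det_le_rows ((bmat A e u v).map (Int.cast : ℤ → ℝ))
    (fun i => (2 : ℝ) ^ E * Real.exp (hh i)) (by
    intro i j
    rw [Matrix.map_apply]
    unfold bmat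
    rw [Matrix.of_apply]
    rcases j with a | a
    · exact hb i a (u i) (hu i)
    · exact hb i a (v i) (hv i))
  rw [hcard, ← Int.cast_det] at h2
  exact h2

theorem log_det_upper (A E : ℕ) (e : Col A → ℕ) (he : ∀ i, e i ≤ E) (u v : Col A → ℤ)
    (hh : Col A → ℝ) (hu : ∀ i, |(u i : ℝ)| ≤ Real.exp (hh i))
    (hv : ∀ i, |(v i : ℝ)| ≤ Real.exp (hh i)) (hdet : (bmat A e u v).det ≠ 0) :
    Real.log |(((bmat A e u v).det : ℤ) : ℝ)| ≤
      2 * ((A : ℝ) + 1) * (Real.log (2 * ((A : ℝ) + 1)) + (E : ℝ) * Real.log 2) + ∑ i, hh i := by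
  have h1 := det_upper A E e he u v hh hu hv
  have h0 : 0 < |(((bmat A e u v).det : ℤ) : ℝ)| := by
    rw [abs_pos]
    exact_mod_cast hdet
  have hcard : Fintype.card (Col A) = 2 * (A + 1) := by
    rw [Fintype.card_sum, Fintype.card_fin]
    ring
  have h2 := Real.log_le_log h0 h1
  have hf0 : (0 : ℝ) < (Nat.factorial (2 * (A + 1)) : ℝ) := by exact_mod_cast Nat.factorial_pos _
  rw [Real.log_mul hf0.ne' (prod_pos fun i _ => by positivity).ne',
    Real.log_prod (fun i _ => by positivity)] at h2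
  have h3 : ∑ i, Real.log ((2 : ℝ) ^ E * Real.exp (hh i)) =
      2 * ((A : ℝ) + 1) * ((E : ℝ) * Real.log 2) + ∑ i, hh i := by
    have h4 : ∀ i : Col A, Real.log ((2 : ℝ) ^ E * Real.exp (hh i)) =
        (E : ℝ) * Real.log 2 + hh i := by
      intro i
      rw [Real.log_mul (by positivity) (Real.exp_pos _).ne', Real.log_pow, Real.log_exp]
    rw [sum_congr rfl fun i _ => h4 i, sum_add_distrib, sum_const, card_univ, hcard, nsmul_eq_mul]
    push_cast
    ring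
  rw [h3] at h2
  have h5 : Real.log (Nat.factorial (2 * (A + 1)) : ℝ) ≤
      2 * ((A : ℝ) + 1) * Real.log (2 * ((A : ℝ) + 1)) := by
    have h6 : ((Nat.factorial (2 * (A + 1)) : ℕ) : ℝ) ≤ (2 * ((A : ℝ) + 1)) ^ (2 * (A + 1)) := by
      have h7 := Nat.factorial_le_pow (2 * (A + 1))
      have h8 : ((Nat.factorial (2 * (A + 1)) : ℕ) : ℝ) ≤ (((2 * (A + 1)) ^ (2 * (A + 1)) : ℕ) : ℝ) := by
        exact_mod_cast h7
      push_cast at h8
      exact h8
    have h9 := Real.log_le_log hf0 h6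
    rw [Real.log_pow] at h9
    push_cast at h9
    exact h9
  nlinarith [h2, h5]

/-- Multiplying the `v_i` by a constant multiplies the determinant by its power. -/
theorem bmat_det_smul (A : ℕ) (e : Col A → ℕ) (u v : Col A → ℤ) (G : ℤ) :
    (bmat A e u (fun i => G * v i)).det = G ^ (A + 1) * (bmat A e u v).det := by
  have h : bmat A e u (fun i => G * v i) =
      bmat A e u v * Matrix.diagonal (Sum.elim (fun _ : Fin (A + 1) => (1 : ℤ))
        (fun _ : Fin (A + 1) => G)) := by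
    ext i j
    rw [Matrix.mul_diagonal]
    unfold bmat
    rw [Matrix.of_apply, Matrix.of_apply]
    rcases j with a | a
    · simp only [Sum.elim_inl, mul_one]
    · simp only [Sum.elim_inr]
      ring
  rw [h, Matrix.det_mul, Matrix.det_diagonal, Fintype.prod_sum_type]
  simp only [Sum.elim_inl, Sum.elim_inr, prod_const, card_univ, Fintype.card_fin, one_pow, one_mul]
  ring

/-- E1.  A nonzero interpolation determinant: the `p`-adic lower bound against the size.  The rows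
are `C(e_i,a) u_i | C(e_i,a) v_i`, `a ≤ A` (the `v_i` may be negative: signs are absorbed in `v_i`),
`g = 1` modulo `p^(n p)` and `G v_i = g^(e_i) u_i` modulo `p^(m p)`. -/
theorem E_padic (A E : ℕ) (S : Finset ℕ) (hS : ∀ p ∈ S, p.Prime) (m n : ℕ → ℕ)
    (hn : ∀ p ∈ S, 1 ≤ n p) (g G : ℤ) (hg : ∀ p ∈ S, ((p : ℤ) ^ n p) ∣ g - 1)
    (hG : ∀ p ∈ S, ¬ (p : ℤ) ∣ G) (e : Col A → ℕ) (he : ∀ i, e i ≤ E) (u v : Col A → ℤ)
    (hv : ∀ p ∈ S, ∀ i, ((p : ℤ) ^ m p) ∣ G * v i - g ^ (e i) * u i)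
    (hh : Col A → ℝ) (hu : ∀ i, |(u i : ℝ)| ≤ Real.exp (hh i))
    (hv' : ∀ i, |(v i : ℝ)| ≤ Real.exp (hh i)) (hdet : (bmat A e u v).det ≠ 0) :
    ∑ p ∈ S, Real.log p * ((m p : ℝ) * ((A : ℝ) + 1) - (m p : ℝ) ^ 2 / (4 * n p)) ≤
      2 * ((A : ℝ) + 1) * (Real.log (2 * ((A : ℝ) + 1)) + (E : ℝ) * Real.log 2) + ∑ i, hh i := by
  refine le_trans ?_ (log_det_upper A E e he u v hh hu hv' hdet)
  have h0 := det_dvd_prod A E S hS m n g hg e he u (fun i => G * v i) hv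
  rw [bmat_det_smul] at h0
  have h1 : (∏ p ∈ S, (p : ℤ) ^ Wt (A + 1) (m p) (n p)) ∣ (bmat A e u v).det := by
    refine IsCoprime.dvd_of_dvd_mul_left ?_ h0
    refine IsCoprime.pow_right (IsCoprime.prod_left fun p hp => IsCoprime.pow_left ?_)
    exact (Prime.coprime_iff_not_dvd (Nat.prime_iff_prime_int.1 (hS p hp))).2 (hG p hp)
  have h2 : (((∏ p ∈ S, (p : ℤ) ^ Wt (A + 1) (m p) (n p) : ℤ)) : ℝ) ≤
      |(((bmat A e u v).det : ℤ) : ℝ)| := by
    rw [← Int.cast_abs]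
    have h3 := Int.le_of_dvd (abs_pos.2 hdet) ((dvd_abs _ _).2 h1)
    exact_mod_cast h3
  have hpos : (0 : ℝ) < (((∏ p ∈ S, (p : ℤ) ^ Wt (A + 1) (m p) (n p) : ℤ)) : ℝ) := by
    push_cast
    exact prod_pos fun p hp => pow_pos (by exact_mod_cast (hS p hp).pos) _
  refine le_trans ?_ (Real.log_le_log hpos h2)
  push_cast
  have hne : ∀ p ∈ S, ((p : ℝ) ^ Wt (A + 1) (m p) (n p)) ≠ 0 := fun p hp =>
    (pow_pos (show (0 : ℝ) < p by exact_mod_cast (hS p hp).pos) _).ne'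
  rw [Real.log_prod hne]
  refine sum_le_sum fun p hp => ?_
  rw [Real.log_pow, mul_comm]
  refine mul_le_mul_of_nonneg_right ?_ (Real.log_natCast_nonneg p)
  have h4 := le_Wt (A + 1) (m p) (n p) (hn p hp)
  push_cast at h4
  exact h4

end Pool.ZB
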