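import Pool.Agent.Helper42.ZB.E0
import Pool.Agent.Helper44.RA.R1
import Pool.Agent.Helper44.RA.R2

/-! Project ZB: the rank of the matrix of binomials (zero estimate). -/

set_option autoImplicit false

namespace Pool.ZB

open Finset Pool.RA Polynomial

theorem E_pow_choose (A : ℕ) : ∃ lam : ℕ → ℕ → ℤ, ∀ (a : Fin (A + 1)) (e : ℕ),
    (e : ℤ) ^ (a : ℕ) = ∑ c : Fin (A + 1), (e.choose (c : ℕ) : ℤ) * lam (a : ℕ) (c : ℕ) := by
  choose lam h0 h1 using fun a : ℕ => bin_exp a 0
  refine ⟨lam, fun a e => ?_⟩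
  have h2 := h1 (a : ℕ) e
  rw [Nat.choose_zero_right, Nat.cast_one, mul_one] at h2
  rw [h2, Fin.sum_univ_eq_sum_range (fun c => (e.choose c : ℤ) * lam (a : ℕ) c) (A + 1)]
  have h3 : range ((a : ℕ) + 0 + 1) ⊆ range (A + 1) := by
    intro m hm
    rw [mem_range] at *
    have := a.2
    omega
  rw [sum_subset h3 fun m _ hm => by
    rw [mem_range] at hm
    rw [h0 (a : ℕ) m (by omega), zero_mul]]
  exact sum_congr rfl fun m _ => mul_comm _ _

/-- The rows `[C(e,a) | C(e,a) R]`, `a ≤ A`. -/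
def rmat (A : ℕ) (e : Col A → ℕ) (R : Col A → ℚ) : Matrix (Col A) (Col A) ℚ :=
  Matrix.of fun i j => Sum.elim (fun a : Fin (A + 1) => ((e i).choose (a : ℕ) : ℚ))
    (fun a : Fin (A + 1) => ((e i).choose (a : ℕ) : ℚ) * R i) j

/-- The rows `[e^a | e^a R]`, `a ≤ A`. -/
def pmat (A : ℕ) (e : Col A → ℕ) (R : Col A → ℚ) : Matrix (Col A) (Col A) ℚ :=
  Matrix.of fun i j => Sum.elim (fun a : Fin (A + 1) => (e i : ℚ) ^ (a : ℕ))
    (fun a : Fin (A + 1) => (e i : ℚ) ^ (a : ℕ) * R i) j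

theorem pmat_eq (A : ℕ) : ∃ U : Matrix (Col A) (Col A) ℚ, ∀ (e : Col A → ℕ) (R : Col A → ℚ),
    pmat A e R = rmat A e R * U := by
  obtain ⟨lam, hlam⟩ := E_pow_choose A
  refine ⟨Matrix.of fun b j => Sum.elim
    (fun a : Fin (A + 1) => Sum.elim (fun c : Fin (A + 1) => (lam (a : ℕ) (c : ℕ) : ℚ)) (fun _ => 0) b)
    (fun a : Fin (A + 1) => Sum.elim (fun _ => 0) (fun c : Fin (A + 1) => (lam (a : ℕ) (c : ℕ) : ℚ)) b) j,
    fun e R => ?_⟩
  have key : ∀ (i : Col A) (a : Fin (A + 1)), (e i : ℚ) ^ (a : ℕ) =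
      ∑ c : Fin (A + 1), ((e i).choose (c : ℕ) : ℚ) * (lam (a : ℕ) (c : ℕ) : ℚ) := by
    intro i a
    have h := hlam a (e i)
    exact_mod_cast h
  ext i j
  rw [Matrix.mul_apply, Fintype.sum_sum_type]
  unfold pmat rmat
  simp only [Matrix.of_apply]
  rcases j with a | a
  · simp only [Sum.elim_inl, Sum.elim_inr, mul_zero, sum_const_zero, add_zero]
    exact key i a
  · simp only [Sum.elim_inl, Sum.elim_inr, mul_zero, sum_const_zero, zero_add]
    rw [key i a, sum_mul]
    exact sum_congr rfl fun c _ => by ring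

/-- E3.  Points `(e j, R j)`, `j : J`, a set `C` of them with a shift `sh` by `(1, ρ)`, `ρ ≠ 1`, and
at least `2 T - 1` different `e`-coordinates in `C`, `T = A + 1`: the matrix of all points has
rank `2 T`. -/
theorem E_rank (A : ℕ) {J : Type} (e : J → ℕ) (R : J → ℚ) (hR : ∀ j, R j ≠ 0) (C : Finset J)
    (sh : J → J) (ρ : ℚ) (hρ : ρ ≠ 1)
    (hsh : ∀ j ∈ C, e (sh j) = e j + 1 ∧ R (sh j) = ρ * R j)
    (hcard : 2 * (A + 1) ≤ (C.image e).card + 1) :
    ∃ f : Col A → J, Function.Injective f ∧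
      (rmat A (fun i => e (f i)) (fun i => R (f i))).det ≠ 0 := by
  classical
  have hinj : ∀ f : Col A → J, (rmat A (fun i => e (f i)) (fun i => R (f i))).det ≠ 0 →
      Function.Injective f := by
    intro f hf a b hab
    by_contra hne
    apply hf
    refine Matrix.det_zero_of_row_eq hne ?_
    unfold rmat
    funext j
    rw [Matrix.of_apply, Matrix.of_apply]
    simp only [hab]
  by_contra hcon
  push Not at hcon
  have hall : ∀ f : Col A → J, (rmat A (fun i => e (f i)) (fun i => R (f i))).det = 0 := by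
    intro f
    by_contra h
    exact h (hcon f (hinj f h))
  obtain ⟨U, hU⟩ := pmat_eq A
  obtain ⟨q, hq0, hq⟩ := rank_rel (Pt := J) (κ := Col A)
    (fun w j => Sum.elim (fun a : Fin (A + 1) => (e w : ℚ) ^ (a : ℕ))
      (fun a : Fin (A + 1) => (e w : ℚ) ^ (a : ℕ) * R w) j) (by
    intro s
    have h1 := hU (fun i => e (s i)) (fun i => R (s i))
    have h2 : (pmat A (fun i => e (s i)) (fun i => R (s i))).det = 0 := by
      rw [h1, Matrix.det_mul, hall s, zero_mul]
    exact h2)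
  set Q0 : ℚ[X] := ∑ a : Fin (A + 1), Polynomial.C (q (Sum.inl a)) * Polynomial.X ^ (a : ℕ) with hQ0
  set Q1 : ℚ[X] := ∑ a : Fin (A + 1), Polynomial.C (q (Sum.inr a)) * Polynomial.X ^ (a : ℕ) with hQ1
  have hdeg : ∀ f : Fin (A + 1) → ℚ,
      (∑ a : Fin (A + 1), Polynomial.C (f a) * Polynomial.X ^ (a : ℕ)).natDegree ≤ A := by
    intro f
    refine Polynomial.natDegree_sum_le_of_forall_le _ _ fun a _ => ?_
    exact (Polynomial.natDegree_C_mul_X_pow_le _ _).trans (Nat.lt_succ_iff.1 a.2)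
  have hpt : ∀ j : J, Q0.eval (e j : ℚ) + Q1.eval (e j : ℚ) * R j = 0 := by
    intro j
    have h4 := hq j
    rw [Fintype.sum_sum_type] at h4
    simp only [Sum.elim_inl, Sum.elim_inr] at h4
    have h5 : Q0.eval (e j : ℚ) = ∑ a : Fin (A + 1), q (Sum.inl a) * (e j : ℚ) ^ (a : ℕ) := by
      rw [hQ0, Polynomial.eval_finsetSum]
      exact Finset.sum_congr rfl fun a _ => by simp
    have h6 : Q1.eval (e j : ℚ) = ∑ a : Fin (A + 1), q (Sum.inr a) * (e j : ℚ) ^ (a : ℕ) := by
      rw [hQ1, Polynomial.eval_finsetSum]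
      exact Finset.sum_congr rfl fun a _ => by simp
    rw [h5, h6, Finset.sum_mul, ← h4]
    congr 1
    exact Finset.sum_congr rfl fun a _ => by ring
  -- choose one point for each value
  have hch : ∀ z ∈ C.image e, ∃ j ∈ C, e j = z := fun z hz => by
    obtain ⟨j, hj, rfl⟩ := mem_image.1 hz
    exact ⟨j, hj, rfl⟩
  have hne : (C.image e).Nonempty := by
    rw [← card_pos]
    omega
  have : Nonempty J := by
    obtain ⟨z, hz⟩ := hne
    obtain ⟨j, -, -⟩ := mem_image.1 hz
    exact ⟨j⟩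
  choose! jz hjC hjz using hch
  have hcast : Function.Injective (Nat.cast : ℕ → ℚ) := Nat.cast_injective
  have hRz : ∀ c : ℕ, (((c : ℚ).num).toNat) = c := fun c => by simp
  have hz := zero_est A Q0 Q1 (hdeg _) (hdeg _) ((C.image e).image (Nat.cast : ℕ → ℚ))
    (by rw [Finset.card_image_of_injective _ hcast]; omega)
    (fun z => R (jz (z.num.toNat)))
    (fun z _ => hR _) 1 ρ hρ (by
      intro z hz
      rw [Finset.mem_image] at hz
      obtain ⟨c, hc, rfl⟩ := hz
      simp only [hRz]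
      have h1 := hpt (jz c)
      rw [hjz c hc] at h1
      exact h1) (by
      intro z hz
      rw [Finset.mem_image] at hz
      obtain ⟨c, hc, rfl⟩ := hz
      simp only [hRz]
      have h1 := hpt (sh (jz c))
      obtain ⟨h2, h3⟩ := hsh (jz c) (hjC c hc)
      rw [h2, h3, hjz c hc] at h1
      push_cast at h1
      rw [mul_comm (R (jz c))]
      exact h1)
  have hcoef : ∀ (f : Fin (A + 1) → ℚ),
      (∑ a : Fin (A + 1), Polynomial.C (f a) * Polynomial.X ^ (a : ℕ)) = 0 → ∀ a, f a = 0 := by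
    intro f hf a
    have h1 := congrArg (fun P : Polynomial ℚ => P.coeff (a : ℕ)) hf
    simp only [Polynomial.finsetSum_coeff, Polynomial.coeff_C_mul_X_pow,
      Polynomial.coeff_zero] at h1
    rw [Finset.sum_eq_single a] at h1
    · simpa using h1
    · intro b _ hb
      have : ¬ (a : ℕ) = (b : ℕ) := fun h2 => hb (Fin.ext h2.symm)
      simp [this]
    · intro h2
      exact absurd (Finset.mem_univ a) h2
  apply hq0
  funext j
  rcases j with a | a
  · exact hcoef _ hz.1 a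
  · exact hcoef _ hz.2 a

/-- From the rational rows to the integer rows `[C(e,a) u | C(e,a) v]`, `R = v / u`. -/
theorem bmat_det_ne_of_rmat (A : ℕ) (e : Col A → ℕ) (u v : Col A → ℤ) (hu : ∀ i, u i ≠ 0)
    (h : (rmat A e (fun i => (v i : ℚ) / (u i : ℚ))).det ≠ 0) : (bmat A e u v).det ≠ 0 := by
  have h1 : (bmat A e u v).map (Int.cast : ℤ → ℚ) =
      Matrix.diagonal (fun i => (u i : ℚ)) * rmat A e (fun i => (v i : ℚ) / (u i : ℚ)) := by
    ext i j
    rw [Matrix.diagonal_mul, Matrix.map_apply]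
    unfold bmat rmat
    rw [Matrix.of_apply, Matrix.of_apply]
    have hui : (u i : ℚ) ≠ 0 := by exact_mod_cast hu i
    rcases j with a | a
    · simp only [Sum.elim_inl]
      push_cast
      ring
    · simp only [Sum.elim_inr]
      push_cast
      field_simp
  intro h0
  have h2 := congrArg Matrix.det h1
  rw [← Int.cast_det, h0, Int.cast_zero, Matrix.det_mul, Matrix.det_diagonal] at h2
  rcases mul_eq_zero.1 h2.symm with h3 | h3
  · rw [prod_eq_zero_iff] at h3
    obtain ⟨i, -, hi⟩ := h3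
    exact hu i (by exact_mod_cast hi)
  · exact h h3

end Pool.ZB
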