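import Pool.Agent.Helper42.ZB.E2

/-! Project ZB: the interpolation determinant at the real place. -/

set_option autoImplicit false

namespace Pool.ZB

open Finset Pool.RA

private noncomputable def W (A E : ℕ) (e : Col A → ℕ) (u : Col A → ℝ) (h : Col A → ℝ) :
    Fin (A + E + 1) ⊕ Col A → Col A → ℝ := fun x i =>
  Sum.elim (fun m : Fin (A + E + 1) => u i * ((e i).choose (m : ℕ) : ℝ))
    (fun j : Col A => Sum.elim (fun _ => (0 : ℝ))
      (fun a : Fin (A + 1) => ((e i).choose (a : ℕ) : ℝ) * h i) j) x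

private noncomputable def cf (A E : ℕ) (x pm : ℝ) : Fin (A + E + 1) ⊕ Col A → Col A → ℝ := fun c j =>
  Sum.elim
    (fun m : Fin (A + E + 1) => Sum.elim
      (fun a : Fin (A + 1) => if (m : ℕ) = (a : ℕ) then (1 : ℝ) else 0)
      (fun a : Fin (A + 1) => ((m : ℕ).choose (a : ℕ) : ℝ) * (1 + x) ^ (a : ℕ) *
        x ^ ((m : ℕ) - (a : ℕ))) j)
    (fun j' : Col A => Sum.elim (fun _ => (0 : ℝ))
      (fun a : Fin (A + 1) => if j' = Sum.inr a then pm else 0) j) c

/-- The real matrix with binomial columns. -/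
def bmatR (A : ℕ) (e : Col A → ℕ) (u v : Col A → ℝ) : Matrix (Col A) (Col A) ℝ :=
  Matrix.of fun i j => Sum.elim (fun a : Fin (A + 1) => ((e i).choose (a : ℕ) : ℝ) * u i)
    (fun a : Fin (A + 1) => ((e i).choose (a : ℕ) : ℝ) * v i) j

private theorem entry (A E : ℕ) (e : Col A → ℕ) (he : ∀ i, e i ≤ E) (u v h : Col A → ℝ)
    (x pm : ℝ) (hv : ∀ i, v i = (1 + x) ^ (e i) * u i + pm * h i) (i j : Col A) :
    bmatR A e u v i j = ∑ c : Fin (A + E + 1) ⊕ Col A, cf A E x pm c j * W A E e u h c i := by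
  rw [Fintype.sum_sum_type]
  unfold bmatR
  rw [Matrix.of_apply]
  rcases j with a | a
  · have h1 : ∀ j' : Col A, cf A E x pm (Sum.inr j') (Sum.inl a) * W A E e u h (Sum.inr j') i = 0 := by
      intro j'
      unfold cf
      simp
    rw [sum_congr rfl fun j' _ => h1 j', sum_const_zero, add_zero]
    have h2 : ∀ m : Fin (A + E + 1), cf A E x pm (Sum.inl m) (Sum.inl a) * W A E e u h (Sum.inl m) i =
        if m = ⟨(a : ℕ), by have := a.2; omega⟩ then u i * ((e i).choose (m : ℕ) : ℝ) else 0 := by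
      intro m
      unfold cf W
      simp only [Sum.elim_inl, Fin.ext_iff, ite_mul, one_mul, zero_mul]
    rw [sum_congr rfl fun m _ => h2 m, sum_ite_eq' univ]
    simp only [mem_univ, if_true, Sum.elim_inl]
    ring
  · have h1 : ∀ j' : Col A, cf A E x pm (Sum.inr j') (Sum.inr a) * W A E e u h (Sum.inr j') i =
        if j' = Sum.inr a then pm * (((e i).choose (a : ℕ) : ℝ) * h i) else 0 := by
      intro j'
      unfold cf W
      simp only [Sum.elim_inr, ite_mul, zero_mul]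
      split_ifs with h3
      · rw [h3]
        rfl
      · rfl
    rw [sum_congr rfl fun j' _ => h1 j', sum_ite_eq' univ]
    simp only [mem_univ, if_true, Sum.elim_inr]
    rw [hv i]
    have h2 := binom_exp (a : ℕ) (e i) (A + E) ((he i).trans (by omega)) x
    have h3 : ∑ m : Fin (A + E + 1), cf A E x pm (Sum.inl m) (Sum.inr a) *
        W A E e u h (Sum.inl m) i = (∑ m ∈ range (A + E + 1), ((e i).choose m : ℝ) *
          ((m.choose (a : ℕ) : ℝ) * (1 + x) ^ (a : ℕ) * x ^ (m - (a : ℕ)))) * u i := by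
      rw [← Fin.sum_univ_eq_sum_range (fun m => ((e i).choose m : ℝ) *
          ((m.choose (a : ℕ) : ℝ) * (1 + x) ^ (a : ℕ) * x ^ (m - (a : ℕ)))) (A + E + 1), sum_mul]
      refine sum_congr rfl fun m _ => ?_
      unfold cf W
      simp only [Sum.elim_inl, Sum.elim_inr]
      ring
    rw [h3, ← h2]
    ring

private theorem expand (A E : ℕ) (e : Col A → ℕ) (he : ∀ i, e i ≤ E) (u v h : Col A → ℝ)
    (x pm : ℝ) (hv : ∀ i, v i = (1 + x) ^ (e i) * u i + pm * h i) :
    (bmatR A e u v).det = ∑ f : Col A → Fin (A + E + 1) ⊕ Col A, (∏ j, cf A E x pm (f j) j) *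
        (Matrix.detRowAlternating : (Col A → ℝ) [⋀^(Col A)]→ₗ[ℝ] ℝ)
          (fun j => W A E e u h (f j)) := by
  rw [← Matrix.det_transpose]
  have h2 : (bmatR A e u v).transpose =
      (fun j => ∑ c : Fin (A + E + 1) ⊕ Col A, cf A E x pm c j • W A E e u h c :
        Col A → Col A → ℝ) := by
    funext j i
    rw [Matrix.transpose_apply, entry A E e he u v h x pm hv i j, Finset.sum_apply]
    rfl
  rw [h2]
  change (Matrix.detRowAlternating : (Col A → ℝ) [⋀^(Col A)]→ₗ[ℝ] ℝ).toMultilinearMap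
    (fun j => ∑ c : Fin (A + E + 1) ⊕ Col A, cf A E x pm c j • W A E e u h c) = _
  rw [MultilinearMap.map_sum]
  refine Finset.sum_congr rfl fun f _ => ?_
  rw [MultilinearMap.map_smul_univ]
  rfl

/-- The product of the coefficients of a nonzero term. -/
private theorem cf_bound (A E : ℕ) (x I Lam V : ℝ) (hx : |x| ≤ Real.exp (-Lam)) (hL : 0 ≤ Lam)
    (hI : 0 ≤ I)
    (hV : ∀ i : ℕ, i ≤ A + 1 → V ≤ I * i + Lam * ((A + 1 - i : ℕ) : ℝ) ^ 2)
    (f : Col A → Fin (A + E + 1) ⊕ Col A) (hf : Function.Injective f) :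
    |∏ j, cf A E x (Real.exp (-I)) (f j) j| ≤ (4 : ℝ) ^ ((A + E) * (A + 1)) * Real.exp (-V) := by
  classical
  set pm : ℝ := Real.exp (-I) with hpm
  by_cases hzero : ∃ j, cf A E x pm (f j) j = 0
  · obtain ⟨j, hj⟩ := hzero
    rw [prod_eq_zero (f := fun j => cf A E x pm (f j) j) (mem_univ j) hj, abs_zero]
    positivity
  push Not at hzero
  have hx1 : |x| ≤ 1 := hx.trans (by
    rw [Real.exp_le_one_iff]
    linarith)
  -- the left columns
  have hl : ∀ a : Fin (A + 1), f (Sum.inl a) = Sum.inl ⟨(a : ℕ), by have := a.2; omega⟩ := by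
    intro a
    have h1 := hzero (Sum.inl a)
    rcases hfa : f (Sum.inl a) with m' | j'
    · rw [hfa] at h1
      unfold cf at h1
      simp only [Sum.elim_inl, ne_eq, ite_eq_right_iff, one_ne_zero, imp_false, not_not] at h1
      congr 1
      exact Fin.ext h1
    · rw [hfa] at h1
      unfold cf at h1
      simp at h1
  have hr : ∀ (a : Fin (A + 1)) (j' : Col A), f (Sum.inr a) = Sum.inr j' → j' = Sum.inr a := by
    intro a j' hj
    have h1 := hzero (Sum.inr a)
    rw [hj] at h1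
    unfold cf at h1
    simp only [Sum.elim_inr, ne_eq, ite_eq_right_iff, not_forall] at h1
    exact h1.1
  have hge : ∀ (a : Fin (A + 1)) (m' : Fin (A + E + 1)), f (Sum.inr a) = Sum.inl m' →
      A + 1 ≤ (m' : ℕ) := by
    intro a m' hm'
    by_contra hcon
    push Not at hcon
    have h1 := hl ⟨(m' : ℕ), hcon⟩
    have h2 : f (Sum.inl ⟨(m' : ℕ), hcon⟩) = f (Sum.inr a) := by
      rw [h1, hm']
    exact Sum.inl_ne_inr (hf h2)
  set g : Fin (A + 1) → ℕ := fun a =>
    Sum.elim (fun m' : Fin (A + E + 1) => (m' : ℕ)) (fun _ => 0) (f (Sum.inr a)) with hg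
  set R : Finset (Fin (A + 1)) := univ.filter fun a => (f (Sum.inr a)).isLeft with hR
  have hRm : ∀ a ∈ R, ∃ m' : Fin (A + E + 1), f (Sum.inr a) = Sum.inl m' ∧ g a = (m' : ℕ) := by
    intro a ha
    rw [hR, mem_filter] at ha
    rcases hfa : f (Sum.inr a) with m' | j'
    · refine ⟨m', rfl, ?_⟩
      rw [hg]
      simp only [hfa, Sum.elim_inl]
    · rw [hfa] at ha
      simp at ha
  have hRc : ∀ a, a ∉ R → f (Sum.inr a) = Sum.inr (Sum.inr a) := by
    intro a ha
    rw [hR, mem_filter] at ha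
    rcases hfa : f (Sum.inr a) with m' | j'
    · rw [hfa] at ha
      simp at ha
    · rw [hr a j' hfa]
  have hw2 := weight_sq R g (fun a ha => by
    obtain ⟨m', h1, h2⟩ := hRm a ha
    rw [h2]
    exact hge a m' h1) (by
    intro a ha b hb hab
    obtain ⟨m1, h1, h2⟩ := hRm a ha
    obtain ⟨m2, h3, h4⟩ := hRm b hb
    rw [h2, h4] at hab
    have h5 : f (Sum.inr a) = f (Sum.inr b) := by
      rw [h1, h3, Fin.ext hab]
    exact Sum.inr_injective (hf h5))
  have hRcard : R.card ≤ A + 1 := by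
    have := card_le_univ R
    rwa [Fintype.card_fin] at this
  have hcomp : (univ \ R).card = A + 1 - R.card := by
    rw [card_sdiff_of_subset (subset_univ R), card_univ, Fintype.card_fin]
  have hVR := hV (A + 1 - R.card) (by omega)
  have h8 : A + 1 - (A + 1 - R.card) = R.card := by omega
  rw [h8] at hVR
  -- the product
  rw [abs_prod, Fintype.prod_sum_type]
  have hleft : ∏ a : Fin (A + 1), |cf A E x pm (f (Sum.inl a)) (Sum.inl a)| = 1 := by
    refine prod_eq_one fun a _ => ?_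
    rw [hl a]
    unfold cf
    simp
  rw [hleft, one_mul, ← prod_sdiff (subset_univ R)]
  have hA2 : ∏ a ∈ univ \ R, |cf A E x pm (f (Sum.inr a)) (Sum.inr a)| =
      Real.exp (-(I * ((A + 1 - R.card : ℕ) : ℝ))) := by
    have h9 : ∀ a ∈ univ \ R, |cf A E x pm (f (Sum.inr a)) (Sum.inr a)| = pm := by
      intro a ha
      rw [mem_sdiff] at ha
      rw [hRc a ha.2]
      unfold cf
      simp only [Sum.elim_inr, if_true]
      exact abs_of_pos (Real.exp_pos _)
    rw [prod_congr rfl h9, prod_const, hcomp, hpm, ← Real.exp_nat_mul]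
    congr 1
    ring
  have hA1 : ∏ a ∈ R, |cf A E x pm (f (Sum.inr a)) (Sum.inr a)| ≤
      (4 : ℝ) ^ ((A + E) * (A + 1)) * Real.exp (-(Lam * (R.card : ℝ) ^ 2)) := by
    have h9 : ∀ a ∈ R, |cf A E x pm (f (Sum.inr a)) (Sum.inr a)| ≤
        (4 : ℝ) ^ (A + E) * Real.exp (-Lam) ^ (g a - (a : ℕ)) := by
      intro a ha
      obtain ⟨m', h1, h2⟩ := hRm a ha
      rw [h1, h2]
      unfold cf
      simp only [Sum.elim_inl, Sum.elim_inr]
      rw [abs_mul, abs_mul, abs_pow, abs_pow, Nat.abs_cast]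
      have h3 : (((m' : ℕ).choose (a : ℕ) : ℕ) : ℝ) ≤ 2 ^ (A + E) := by
        have h4 : (m' : ℕ).choose (a : ℕ) ≤ 2 ^ (A + E) :=
          (Nat.choose_le_two_pow _ _).trans
            (Nat.pow_le_pow_right (by norm_num) (by have := m'.2; omega))
        exact_mod_cast h4
      have h5 : |1 + x| ^ (a : ℕ) ≤ 2 ^ (A + E) := by
        have h6 : |1 + x| ≤ 2 := (abs_add_le _ _).trans (by rw [abs_one]; linarith)
        exact (pow_le_pow_left₀ (abs_nonneg _) h6 _).trans
          (pow_le_pow_right₀ (by norm_num) (by have := a.2; omega))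
      have h7 : |x| ^ ((m' : ℕ) - (a : ℕ)) ≤ Real.exp (-Lam) ^ ((m' : ℕ) - (a : ℕ)) :=
        pow_le_pow_left₀ (abs_nonneg _) hx _
      have h10 : (4 : ℝ) ^ (A + E) = 2 ^ (A + E) * 2 ^ (A + E) := by
        rw [← mul_pow]
        norm_num
      rw [h10]
      exact mul_le_mul (mul_le_mul h3 h5 (by positivity) (by positivity)) h7 (by positivity)
        (by positivity)
    refine (prod_le_prod (fun a _ => abs_nonneg _) h9).trans ?_
    rw [prod_mul_distrib, prod_const, prod_pow_eq_pow_sum, ← pow_mul]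
    refine mul_le_mul (pow_le_pow_right₀ (by norm_num) (Nat.mul_le_mul_left _ hRcard)) ?_
      (by positivity) (by positivity)
    rw [← Real.exp_nat_mul, Real.exp_le_exp]
    have h11 : ((R.card : ℝ)) ^ 2 ≤ ((∑ a ∈ R, (g a - (a : ℕ)) : ℕ) : ℝ) := by exact_mod_cast hw2
    have h12 := mul_le_mul_of_nonneg_left h11 hL
    linarith
  rw [hA2]
  calc Real.exp (-(I * ((A + 1 - R.card : ℕ) : ℝ))) *
        ∏ a ∈ R, |cf A E x pm (f (Sum.inr a)) (Sum.inr a)|
      ≤ Real.exp (-(I * ((A + 1 - R.card : ℕ) : ℝ))) *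
        ((4 : ℝ) ^ ((A + E) * (A + 1)) * Real.exp (-(Lam * (R.card : ℝ) ^ 2))) :=
        mul_le_mul_of_nonneg_left hA1 (Real.exp_pos _).le
    _ = (4 : ℝ) ^ ((A + E) * (A + 1)) *
        Real.exp (-(I * ((A + 1 - R.card : ℕ) : ℝ) + Lam * (R.card : ℝ) ^ 2)) := by
        rw [neg_add, Real.exp_add]
        ring
    _ ≤ (4 : ℝ) ^ ((A + E) * (A + 1)) * Real.exp (-V) := by
        refine mul_le_mul_of_nonneg_left ?_ (by positivity)
        rw [Real.exp_le_exp]
        linarith

/-- The real determinant is small. -/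
theorem detR_le (A E : ℕ) (e : Col A → ℕ) (he : ∀ i, e i ≤ E) (u v : Col A → ℝ) (ρ I Lam V : ℝ)
    (hρ : |ρ - 1| ≤ Real.exp (-Lam)) (hL : 0 ≤ Lam) (hI : 0 ≤ I)
    (hV : ∀ i : ℕ, i ≤ A + 1 → V ≤ I * i + Lam * ((A + 1 - i : ℕ) : ℝ) ^ 2)
    (hh : Col A → ℝ) (hu : ∀ i, |u i| ≤ Real.exp (hh i))
    (hv : ∀ i, |v i - ρ ^ (e i) * u i| ≤ Real.exp (hh i - I)) :
    |(bmatR A e u v).det| ≤ ((3 * A + E + 3 : ℕ) : ℝ) ^ (2 * (A + 1)) *
      ((4 : ℝ) ^ ((A + E) * (A + 1)) * Real.exp (-V) *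
        ((Nat.factorial (2 * (A + 1)) : ℝ) * ∏ i, ((2 : ℝ) ^ E * Real.exp (hh i)))) := by
  classical
  have hcardC : Fintype.card (Col A) = 2 * (A + 1) := by
    rw [Fintype.card_sum, Fintype.card_fin]
    ring
  set h : Col A → ℝ := fun i => Real.exp I * (v i - ρ ^ (e i) * u i) with hh'
  have hv' : ∀ i, v i = (1 + (ρ - 1)) ^ (e i) * u i + Real.exp (-I) * h i := by
    intro i
    rw [hh']
    simp only
    rw [← mul_assoc, ← Real.exp_add]
    have h1 : (1 + (ρ - 1)) = ρ := by ring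
    rw [h1, neg_add_cancel, Real.exp_zero]
    ring
  have hhb : ∀ i, |h i| ≤ Real.exp (hh i) := by
    intro i
    rw [hh']
    simp only
    rw [abs_mul, abs_of_pos (Real.exp_pos _)]
    calc Real.exp I * |v i - ρ ^ (e i) * u i| ≤ Real.exp I * Real.exp (hh i - I) :=
          mul_le_mul_of_nonneg_left (hv i) (Real.exp_pos _).le
      _ = Real.exp (hh i) := by
          rw [← Real.exp_add]
          congr 1
          ring
  rw [expand A E e he u v h (ρ - 1) (Real.exp (-I)) hv']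
  have hterm : ∀ f : Col A → Fin (A + E + 1) ⊕ Col A,
      |(∏ j, cf A E (ρ - 1) (Real.exp (-I)) (f j) j) *
        (Matrix.detRowAlternating : (Col A → ℝ) [⋀^(Col A)]→ₗ[ℝ] ℝ)
          (fun j => W A E e u h (f j))| ≤ (4 : ℝ) ^ ((A + E) * (A + 1)) * Real.exp (-V) *
        ((Nat.factorial (2 * (A + 1)) : ℝ) * ∏ i, ((2 : ℝ) ^ E * Real.exp (hh i))) := by
    intro f
    by_cases hf : Function.Injective f
    · rw [abs_mul]
      refine mul_le_mul (cf_bound A E (ρ - 1) I Lam V hρ hL hI hV f hf) ?_ (abs_nonneg _)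
        (by positivity)
      have h1 : (Matrix.detRowAlternating : (Col A → ℝ) [⋀^(Col A)]→ₗ[ℝ] ℝ)
          (fun j => W A E e u h (f j)) =
          ((Matrix.of fun j i => W A E e u h (f j) i).transpose).det := by
        rw [Matrix.det_transpose]
        rfl
      rw [h1, ← hcardC]
      refine abs_det_le_rows _ (fun i => (2 : ℝ) ^ E * Real.exp (hh i)) fun i j => ?_
      rw [Matrix.transpose_apply, Matrix.of_apply]
      have hb : ∀ (a : ℕ) (w : ℝ), |w| ≤ Real.exp (hh i) →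
          |(((e i).choose a : ℕ) : ℝ) * w| ≤ (2 : ℝ) ^ E * Real.exp (hh i) := by
        intro a w hw
        rw [abs_mul, Nat.abs_cast]
        refine mul_le_mul ?_ hw (abs_nonneg _) (by positivity)
        have h1 : (e i).choose a ≤ 2 ^ E :=
          (Nat.choose_le_two_pow _ _).trans (Nat.pow_le_pow_right (by norm_num) (he i))
        exact_mod_cast h1
      unfold W
      rcases f j with m' | j'
      · simp only [Sum.elim_inl]
        rw [mul_comm]
        exact hb _ _ (hu i)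
      · rcases j' with a | a
        · simp only [Sum.elim_inl, Sum.elim_inr, abs_zero]
          positivity
        · simp only [Sum.elim_inr]
          exact hb _ _ (hhb i)
    · have h6 : (Matrix.detRowAlternating : (Col A → ℝ) [⋀^(Col A)]→ₗ[ℝ] ℝ)
          (fun j => W A E e u h (f j)) = 0 := by
        apply AlternatingMap.map_eq_zero_of_not_injective
        intro h7
        apply hf
        intro a b hab
        exact h7 (congrArg (W A E e u h) hab)
      rw [h6, mul_zero, abs_zero]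
      positivity
  refine (Finset.abs_sum_le_sum_abs _ _).trans ((Finset.sum_le_sum fun f _ => hterm f).trans ?_)
  rw [sum_const, card_univ, Fintype.card_fun, Fintype.card_sum, hcardC, Fintype.card_fin,
    nsmul_eq_mul]
  have h9 : A + E + 1 + 2 * (A + 1) = 3 * A + E + 3 := by ring
  rw [h9]
  push_cast
  exact le_rfl

/-- E2.  A nonzero interpolation determinant at the real place: `|G v_i - ρ^(e_i) u_i|` is at most
`exp (hh_i - I)`, `|ρ - 1| ≤ exp (-Lam)`. -/
theorem E_real (A E : ℕ) (e : Col A → ℕ) (he : ∀ i, e i ≤ E) (u v : Col A → ℤ)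
    (ρ G I Lam : ℝ) (hG : 0 < G) (hGE : |Real.log G| ≤ E)
    (hρ : |ρ - 1| ≤ Real.exp (-Lam)) (hL : 0 < Lam) (hI : 0 ≤ I)
    (hh : Col A → ℝ) (hu : ∀ i, |(u i : ℝ)| ≤ Real.exp (hh i))
    (hv : ∀ i, |G * (v i : ℝ) - ρ ^ (e i) * (u i : ℝ)| ≤ Real.exp (hh i - I))
    (hdet : (bmat A e u v).det ≠ 0) :
    I * ((A : ℝ) + 1) - I ^ 2 / (4 * Lam) ≤
      2 * ((A : ℝ) + 1) * (2 * Real.log (3 * (A : ℝ) + E + 3) + 2 * ((A : ℝ) + E)) + ∑ i, hh i := by
  have hcardC : Fintype.card (Col A) = 2 * (A + 1) := by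
    rw [Fintype.card_sum, Fintype.card_fin]
    ring
  set V : ℝ := I * ((A : ℝ) + 1) - I ^ 2 / (4 * Lam) with hVdef
  have hV : ∀ i : ℕ, i ≤ A + 1 → V ≤ I * i + Lam * ((A + 1 - i : ℕ) : ℝ) ^ 2 := by
    intro i hi
    rw [Nat.cast_sub hi, hVdef]
    push_cast
    have h2 : I * i + Lam * ((A : ℝ) + 1 - i) ^ 2 - (I * ((A : ℝ) + 1) - I ^ 2 / (4 * Lam)) =
        Lam * ((A : ℝ) + 1 - i - I / (2 * Lam)) ^ 2 := by
      field_simp
      ring
    have h3 := mul_nonneg hL.le (sq_nonneg ((A : ℝ) + 1 - i - I / (2 * Lam)))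
    linarith
  have h1 := detR_le A E e he (fun i => (u i : ℝ)) (fun i => G * (v i : ℝ)) ρ I Lam V hρ hL.le hI
    hV hh hu hv
  -- the determinant with the factor `G`
  have h2 : (bmatR A e (fun i => (u i : ℝ)) (fun i => G * (v i : ℝ))).det =
      G ^ (A + 1) * (((bmat A e u v).det : ℤ) : ℝ) := by
    have h3 : bmatR A e (fun i => (u i : ℝ)) (fun i => G * (v i : ℝ)) =
        (bmat A e u v).map (Int.cast : ℤ → ℝ) * Matrix.diagonal (Sum.elim (fun _ : Fin (A + 1) => (1 : ℝ))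
          (fun _ : Fin (A + 1) => G)) := by
      ext i j
      rw [Matrix.mul_diagonal, Matrix.map_apply]
      unfold bmat bmatR
      rw [Matrix.of_apply, Matrix.of_apply]
      rcases j with a | a
      · simp only [Sum.elim_inl, mul_one]
        push_cast
        ring
      · simp only [Sum.elim_inr]
        push_cast
        ring
    rw [h3, Matrix.det_mul, Matrix.det_diagonal, Fintype.prod_sum_type]
    simp only [Sum.elim_inl, Sum.elim_inr, prod_const, card_univ, Fintype.card_fin, one_pow, one_mul]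
    rw [← Int.cast_det]
    ring
  rw [h2, abs_mul, abs_of_pos (pow_pos hG _)] at h1
  have h4 : (1 : ℝ) ≤ |(((bmat A e u v).det : ℤ) : ℝ)| := by
    rw [← Int.cast_abs]
    exact_mod_cast Int.one_le_abs hdet
  have h5 : G ^ (A + 1) ≤ ((3 * A + E + 3 : ℕ) : ℝ) ^ (2 * (A + 1)) *
      ((4 : ℝ) ^ ((A + E) * (A + 1)) * Real.exp (-V) *
        ((Nat.factorial (2 * (A + 1)) : ℝ) * ∏ i, ((2 : ℝ) ^ E * Real.exp (hh i)))) := by
    refine le_trans ?_ h1
    have h6 : 0 < G ^ (A + 1) := pow_pos hG _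
    nlinarith
  have hB : (0 : ℝ) < ((3 * A + E + 3 : ℕ) : ℝ) := by positivity
  have hf0 : (0 : ℝ) < (Nat.factorial (2 * (A + 1)) : ℝ) := by exact_mod_cast Nat.factorial_pos _
  have hP : (0 : ℝ) < ∏ i, ((2 : ℝ) ^ E * Real.exp (hh i)) := prod_pos fun i _ => by positivity
  have h6 := Real.log_le_log (pow_pos hG _) h5
  rw [Real.log_pow, Real.log_mul (by positivity) (by positivity),
    Real.log_mul (by positivity) (by positivity), Real.log_mul (by positivity) (by positivity),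
    Real.log_mul hf0.ne' hP.ne', Real.log_pow, Real.log_pow, Real.log_exp,
    Real.log_prod (fun i _ => by positivity)] at h6
  have h7 : ∑ i, Real.log ((2 : ℝ) ^ E * Real.exp (hh i)) =
      2 * ((A : ℝ) + 1) * ((E : ℝ) * Real.log 2) + ∑ i, hh i := by
    have h8 : ∀ i : Col A, Real.log ((2 : ℝ) ^ E * Real.exp (hh i)) =
        (E : ℝ) * Real.log 2 + hh i := by
      intro i
      rw [Real.log_mul (by positivity) (Real.exp_pos _).ne', Real.log_pow, Real.log_exp]
    rw [sum_congr rfl fun i _ => h8 i, sum_add_distrib, sum_const, card_univ, hcardC, nsmul_eq_mul]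
    push_cast
    ring
  rw [h7] at h6
  have h9 : Real.log (Nat.factorial (2 * (A + 1)) : ℝ) ≤
      2 * ((A : ℝ) + 1) * Real.log (3 * (A : ℝ) + E + 3) := by
    have h10 : ((Nat.factorial (2 * (A + 1)) : ℕ) : ℝ) ≤ (2 * ((A : ℝ) + 1)) ^ (2 * (A + 1)) := by
      have h11 := Nat.factorial_le_pow (2 * (A + 1))
      have h12 : ((Nat.factorial (2 * (A + 1)) : ℕ) : ℝ) ≤ (((2 * (A + 1)) ^ (2 * (A + 1)) : ℕ) : ℝ) := by
        exact_mod_cast h11
      push_cast at h12
      exact h12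
    have hA0 : (0 : ℝ) ≤ A := Nat.cast_nonneg A
    have hE0 : (0 : ℝ) ≤ E := Nat.cast_nonneg E
    have h13 : (2 * ((A : ℝ) + 1)) ^ (2 * (A + 1)) ≤ (3 * (A : ℝ) + E + 3) ^ (2 * (A + 1)) :=
      pow_le_pow_left₀ (by positivity) (by linarith) _
    have h14 := Real.log_le_log hf0 (h10.trans h13)
    rw [Real.log_pow] at h14
    push_cast at h14
    exact h14
  have hlog4 : Real.log 4 = 2 * Real.log 2 := by
    rw [show (4 : ℝ) = 2 ^ 2 by norm_num, Real.log_pow]
    norm_num
  have hlog2 : Real.log 2 ≤ 7 / 10 := by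
    have := Real.log_two_lt_d9
    linarith
  have hlog20 : 0 ≤ Real.log 2 := Real.log_nonneg (by norm_num)
  have hG2 : -(E : ℝ) ≤ Real.log G := (abs_le.1 hGE).1
  push_cast at h6
  rw [hlog4] at h6
  have hA0 : (0 : ℝ) ≤ A := Nat.cast_nonneg A
  have hE0 : (0 : ℝ) ≤ E := Nat.cast_nonneg E
  have h15 : -((A : ℝ) + 1) * E ≤ ((A : ℝ) + 1) * Real.log G := by nlinarith
  have h16 : ((A : ℝ) + E) * ((A : ℝ) + 1) * (2 * Real.log 2) +
      2 * ((A : ℝ) + 1) * ((E : ℝ) * Real.log 2) + ((A : ℝ) + 1) * E ≤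
      2 * ((A : ℝ) + 1) * (2 * ((A : ℝ) + E)) := by
    have h17 : ((A : ℝ) + E) * (2 * Real.log 2) + 2 * ((E : ℝ) * Real.log 2) + E ≤
        2 * (2 * ((A : ℝ) + E)) := by nlinarith
    nlinarith
  nlinarith [h6, h9, h15, h16]

end Pool.ZB
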