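import Pool.Agent.Helper42.ZB.E3
import Pool.Agent.Helper42.ZB.E4

/-! Project ZB: the zero estimate and the real place in the form used by the cores. -/

set_option autoImplicit false

namespace Pool.ZB

open Finset Pool.RA

/-- Zero estimate, with the rows taken from `C ∪ C.image sh`. -/
theorem E_rank_mem (A : ℕ) {J : Type} [DecidableEq J] (C : Finset J) (sh : J → J) (e : J → ℕ)
    (u v : J → ℤ) (hu : ∀ j ∈ C ∪ C.image sh, u j ≠ 0) (hv : ∀ j ∈ C ∪ C.image sh, v j ≠ 0)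
    (ρ : ℚ) (hρ : ρ ≠ 1) (he : ∀ j ∈ C, e (sh j) = e j + 1)
    (hR : ∀ j ∈ C, (v (sh j) : ℚ) / u (sh j) = ρ * ((v j : ℚ) / u j))
    (hC : 2 * (A + 1) ≤ (C.image e).card + 1) :
    ∃ f : Col A → J, Function.Injective f ∧ (∀ i, f i ∈ C ∪ C.image sh) ∧
      (bmat A (fun i => e (f i)) (fun i => u (f i)) (fun i => v (f i))).det ≠ 0 := by
  classical
  let J' := {j // j ∈ C ∪ C.image sh}
  let sh' : J' → J' := fun j => if h : j.1 ∈ C then
    ⟨sh j.1, mem_union_right _ (mem_image_of_mem _ h)⟩ else j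
  let C' : Finset J' := univ.filter (fun j => j.1 ∈ C)
  have hsh' : ∀ j : J', j.1 ∈ C → (sh' j).1 = sh j.1 := by
    intro j hj
    simp only [sh']
    rw [dif_pos hj]
  have himg : C'.image (fun j : J' => e j.1) = C.image e := by
    ext t
    simp only [mem_image, C', mem_filter, mem_univ, true_and]
    constructor
    · rintro ⟨j, hj, rfl⟩
      exact ⟨j.1, hj, rfl⟩
    · rintro ⟨j, hj, rfl⟩
      exact ⟨⟨j, mem_union_left _ hj⟩, hj, rfl⟩
  obtain ⟨f, hf, hdet⟩ := E_rank A (J := J') (fun j => e j.1) (fun j => (v j.1 : ℚ) / (u j.1 : ℚ))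
    (fun j => div_ne_zero (by exact_mod_cast hv j.1 j.2) (by exact_mod_cast hu j.1 j.2)) C' sh' ρ hρ
    (by
      intro j hj
      have hj' : j.1 ∈ C := (mem_filter.1 hj).2
      simp only [hsh' j hj']
      exact ⟨he j.1 hj', hR j.1 hj'⟩)
    (by rw [himg]; exact hC)
  refine ⟨fun i => (f i).1, fun a b h => hf (Subtype.ext h), fun i => (f i).2, ?_⟩
  exact bmat_det_ne_of_rmat A (fun i => e (f i).1) (fun i => u (f i).1) (fun i => v (f i).1)
    (fun i => hu _ (f i).2) hdet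

/-- If the determinant does not vanish then `A ≤ E`. -/
theorem le_of_det (A E : ℕ) (e : Col A → ℕ) (he : ∀ i, e i ≤ E) (u v : Col A → ℤ)
    (hdet : (bmat A e u v).det ≠ 0) : A ≤ E := by
  by_contra hlt
  push Not at hlt
  apply hdet
  refine Matrix.det_eq_zero_of_column_eq_zero (Sum.inl (Fin.last A)) fun i => ?_
  change (((e i).choose ((Fin.last A : Fin (A + 1)) : ℕ) : ℤ)) * u i = 0
  rw [Fin.val_last, Nat.choose_eq_zero_of_lt ((he i).trans_lt hlt)]
  simp

/-- The real place, in the form of the core. -/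
theorem E_real_core (A E : ℕ) (hE : 1 ≤ E) (ρ G I n0 : ℝ) (hI : 0 < I) (hn : 2 ≤ n0)
    (hρ : |ρ - 1| ≤ Real.exp (-n0)) (hG : 0 < G) (hG' : |Real.log G| ≤ E) (e : Col A → ℕ)
    (he : ∀ i, e i ≤ E) (u v : Col A → ℤ) (hh : Col A → ℝ)
    (hu : ∀ i, |(u i : ℝ)| ≤ Real.exp (hh i))
    (hv : ∀ i, |G * v i - ρ ^ (e i) * u i| ≤ Real.exp (hh i - I))
    (hdet : (bmat A e u v).det ≠ 0) :
    I * ((A : ℝ) + 1) - I ^ 2 / (4 * n0) ≤
      2 * ((A : ℝ) + 1) * (Real.log (2 * ((A : ℝ) + 1)) + Real.log (E + 2) + 8 * E) +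
        ∑ i, hh i := by
  have hAE := le_of_det A E e he u v hdet
  have h := E_real A E e he u v ρ G I n0 hG hG' hρ (by linarith) hI.le hh hu hv hdet
  refine h.trans ?_
  have hAE' : (A : ℝ) ≤ E := by exact_mod_cast hAE
  have hE' : (1 : ℝ) ≤ E := by exact_mod_cast hE
  have hA0 : (0 : ℝ) ≤ A := Nat.cast_nonneg _
  have h1 : Real.log (3 * (A : ℝ) + E + 3) ≤ Real.log 4 + Real.log (E + 2) := by
    rw [← Real.log_mul (by norm_num) (by linarith)]
    apply Real.log_le_log (by linarith)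
    linarith
  have h4 : Real.log 4 ≤ 1.3863 := by
    have : (4 : ℝ) = 2 ^ 2 := by norm_num
    rw [this, Real.log_pow]
    have := Real.log_two_lt_d9
    push_cast
    linarith
  have h2 : Real.log ((E : ℝ) + 2) ≤ E / 2 + 0.6932 := by
    have h7 := Real.log_le_sub_one_of_pos (show (0 : ℝ) < ((E : ℝ) + 2) / 2 by linarith)
    rw [Real.log_div (by linarith) (by norm_num)] at h7
    have := Real.log_two_lt_d9
    linarith
  have h3 : 0 ≤ Real.log (2 * ((A : ℝ) + 1)) := Real.log_nonneg (by linarith)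
  have h5 : 2 * Real.log (3 * (A : ℝ) + E + 3) + 2 * ((A : ℝ) + E) ≤
      Real.log (2 * ((A : ℝ) + 1)) + Real.log (E + 2) + 8 * E := by
    linarith
  have h6 : 0 ≤ 2 * ((A : ℝ) + 1) := by linarith
  have := mul_le_mul_of_nonneg_left h5 h6
  linarith

end Pool.ZB
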